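import Mathlib
import Pool.Agent.Q35Kron

/-!
# MP_72c16c_nt, Q1: disproof

For `p = 19`, `q = 149` the divisor `Φ_p Φ_q Φ_{p²q} Φ_{pq²} Φ_{p²q²}` of `X^{p²q²} - 1` has the
coefficient `-835` at `X^1456798`, while the two products of the conjectured formula have height
at most `834`.
-/

namespace Pool.Agent.Q35.MaxHeight

open Polynomial Finset Pool.Agent.Q35.Kron

/-- The height of an integer polynomial: the largest absolute value of a coefficient. -/
def height (f : ℤ[X]) : ℕ := f.support.sup fun i => (f.coeff i).natAbs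

lemma le_height (f : ℤ[X]) (i : ℕ) : (f.coeff i).natAbs ≤ height f := by
  by_cases h : i ∈ f.support
  · exact Finset.le_sup (f := fun i => (f.coeff i).natAbs) h
  · rw [notMem_support_iff] at h
    simp [h]

lemma height_le {f : ℤ[X]} {K : ℕ} (h : Bd f K) : height f ≤ K := by
  apply Finset.sup_le
  intro i _
  have := h i
  rw [Int.abs_eq_natAbs] at this
  exact_mod_cast this

/-! ### Cyclotomic identities -/

section cyc

variable (p q : ℕ)

lemma exp_bin (k s : ℕ) : expand ℤ k (X ^ s - 1) = X ^ (s * k) - 1 := by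
  rw [map_sub, map_one, map_pow, expand_X, ← pow_mul, mul_comm k]

lemma I1 (hp : p.Prime) (hq : q.Prime) (hpq : p ≠ q) :
    (X ^ q - 1) * cyclotomic (p * q) ℤ * (X ^ p - 1) = (X ^ (p * q) - 1) * (X ^ 1 - 1) := by
  have : Fact p.Prime := ⟨hp⟩
  have h1 : cyclotomic p ℤ * (X - 1) = X ^ p - 1 := cyclotomic_prime_mul_X_sub_one ℤ p
  have h2 : expand ℤ q (cyclotomic p ℤ) = cyclotomic (p * q) ℤ * cyclotomic p ℤ :=
    cyclotomic_expand_eq_cyclotomic_mul hq
      (fun h => hpq ((Nat.prime_dvd_prime_iff_eq hq hp).mp h).symm) ℤ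
  have h3 := congrArg (expand ℤ q) h1
  rw [map_mul, h2, map_sub, map_one, expand_X, exp_bin] at h3
  rw [pow_one]
  linear_combination (X - 1) * h3 - (X ^ q - 1) * cyclotomic (p * q) ℤ * h1

lemma I2 (hp : p.Prime) (hq : q.Prime) (hpq : p ≠ q) :
    (X ^ (p * q) - 1) * cyclotomic (p ^ 2 * q) ℤ * (X ^ (p ^ 2) - 1)
      = (X ^ (p ^ 2 * q) - 1) * (X ^ p - 1) := by
  have h := congrArg (expand ℤ p) (I1 p q hp hq hpq)
  rw [map_mul, map_mul, map_mul, exp_bin, exp_bin, exp_bin, exp_bin,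
    cyclotomic_expand_eq_cyclotomic hp (Dvd.intro q rfl)] at h
  have e1 : q * p = p * q := mul_comm _ _
  have e2 : p * q * p = p ^ 2 * q := by ring
  have e3 : p * p = p ^ 2 := by ring
  rw [e1, e2, e3, one_mul] at h
  exact h

lemma I3 (hp : p.Prime) (hq : q.Prime) (hpq : p ≠ q) :
    (X ^ (q ^ 2) - 1) * cyclotomic (p * q ^ 2) ℤ * (X ^ (p * q) - 1)
      = (X ^ (p * q ^ 2) - 1) * (X ^ q - 1) := by
  have h := congrArg (expand ℤ q) (I1 p q hp hq hpq)
  rw [map_mul, map_mul, map_mul, exp_bin, exp_bin, exp_bin, exp_bin,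
    cyclotomic_expand_eq_cyclotomic hq (Dvd.intro_left p rfl)] at h
  have e2 : p * q * q = p * q ^ 2 := by ring
  have e3 : q * q = q ^ 2 := by ring
  rw [e2, e3, one_mul] at h
  exact h

lemma I4 (hp : p.Prime) (hq : q.Prime) (hpq : p ≠ q) :
    (X ^ (p * q ^ 2) - 1) * cyclotomic (p ^ 2 * q ^ 2) ℤ * (X ^ (p ^ 2 * q) - 1)
      = (X ^ (p ^ 2 * q ^ 2) - 1) * (X ^ (p * q) - 1) := by
  have h := congrArg (expand ℤ p) (I3 p q hp hq hpq)
  rw [map_mul, map_mul, map_mul, exp_bin, exp_bin, exp_bin, exp_bin,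
    cyclotomic_expand_eq_cyclotomic hp (Dvd.intro _ rfl)] at h
  have e2 : p * q ^ 2 * p = p ^ 2 * q ^ 2 := by ring
  have e3 : q ^ 2 * p = p * q ^ 2 := by ring
  have e4 : p * q * p = p ^ 2 * q := by ring
  have e5 : q * p = p * q := by ring
  rw [e2, e3, e4, e5] at h
  exact h

lemma bin_ne_zero (s : ℕ) (hs : 0 < s) : (X ^ s - 1 : ℤ[X]) ≠ 0 := by
  have := X_pow_sub_C_ne_zero (R := ℤ) hs 1
  simpa using this

/-- The first product of the conjectured formula. -/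
noncomputable def P1 : ℤ[X] :=
  cyclotomic p ℤ * cyclotomic q ℤ * cyclotomic (p ^ 2 * q) ℤ * cyclotomic (p * q ^ 2) ℤ

/-- The second product of the conjectured formula. -/
noncomputable def P2 : ℤ[X] :=
  cyclotomic p ℤ * cyclotomic q ℤ * cyclotomic (p ^ 2) ℤ * cyclotomic (q ^ 2) ℤ

/-- The denominator polynomial. -/
noncomputable def Dp : ℤ[X] :=
  (X ^ 1 - 1) * (X ^ 1 - 1) * (X ^ (p ^ 2) - 1) * (X ^ (p * q) - 1) * (X ^ (p * q) - 1)
        * (X ^ (q ^ 2) - 1)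

/-- The numerator polynomial. -/
noncomputable def Np : ℤ[X] :=
  (X ^ p - 1) * (X ^ p - 1) * (X ^ q - 1) * (X ^ q - 1) * (X ^ (p ^ 2 * q) - 1)
        * (X ^ (p * q ^ 2) - 1)

lemma P1_mul (hp : p.Prime) (hq : q.Prime) (hpq : p ≠ q) : P1 p q * Dp p q = Np p q := by
  unfold P1 Dp Np
  have : Fact p.Prime := ⟨hp⟩
  have : Fact q.Prime := ⟨hq⟩
  have h1 : cyclotomic p ℤ * (X - 1) = X ^ p - 1 := cyclotomic_prime_mul_X_sub_one ℤ p
  have h2 : cyclotomic q ℤ * (X - 1) = X ^ q - 1 := cyclotomic_prime_mul_X_sub_one ℤ q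
  have h3 := I2 p q hp hq hpq
  have h4 := I3 p q hp hq hpq
  rw [pow_one]
  calc _ = (cyclotomic p ℤ * (X - 1)) * (cyclotomic q ℤ * (X - 1))
        * ((X ^ (p * q) - 1) * cyclotomic (p ^ 2 * q) ℤ * (X ^ (p ^ 2) - 1))
        * ((X ^ (q ^ 2) - 1) * cyclotomic (p * q ^ 2) ℤ * (X ^ (p * q) - 1)) := by ring
    _ = _ := by rw [h1, h2, h3, h4]; ring

/-- The large divisor. -/
noncomputable def F (p q : ℕ) : ℤ[X] :=
  cyclotomic p ℤ * cyclotomic q ℤ * cyclotomic (p ^ 2 * q) ℤ * cyclotomic (p * q ^ 2) ℤ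
    * cyclotomic (p ^ 2 * q ^ 2) ℤ

lemma cyc_big (hp : p.Prime) (hq : q.Prime) (hpq : p ≠ q) :
    F p q * (1 - X ^ (p * q)) * (1 - X ^ (q ^ 2)) * (1 - X ^ (p ^ 2))
      = cyclotomic p ℤ ^ 2 * (1 - X ^ q) ^ 2 * (1 - X ^ (p ^ 2 * q ^ 2)) := by
  have : Fact p.Prime := ⟨hp⟩
  have : Fact q.Prime := ⟨hq⟩
  have h1 : cyclotomic p ℤ * (X - 1) = X ^ p - 1 := cyclotomic_prime_mul_X_sub_one ℤ p
  have h2 : cyclotomic q ℤ * (X - 1) = X ^ q - 1 := cyclotomic_prime_mul_X_sub_one ℤ q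
  have h3 := I2 p q hp hq hpq
  have h4 := I3 p q hp hq hpq
  have h5 := I4 p q hp hq hpq
  have p0 := hp.pos
  have q0 := hq.pos
  have hX : (X - 1 : ℤ[X]) ≠ 0 := by simpa using bin_ne_zero 1 one_pos
  have hne : (X - 1 : ℤ[X]) * (X - 1) * (X ^ (p * q) - 1) * (X ^ (p ^ 2 * q) - 1)
      * (X ^ (p * q ^ 2) - 1) ≠ 0 := by
    refine mul_ne_zero (mul_ne_zero (mul_ne_zero (mul_ne_zero hX hX) ?_) ?_) ?_ <;>
      exact bin_ne_zero _ (by positivity)
  apply mul_right_cancel₀ hne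
  unfold F
  calc _ = - ((cyclotomic p ℤ * (X - 1)) * (cyclotomic q ℤ * (X - 1))
        * ((X ^ (p * q) - 1) * cyclotomic (p ^ 2 * q) ℤ * (X ^ (p ^ 2) - 1))
        * ((X ^ (q ^ 2) - 1) * cyclotomic (p * q ^ 2) ℤ * (X ^ (p * q) - 1))
        * ((X ^ (p * q ^ 2) - 1) * cyclotomic (p ^ 2 * q ^ 2) ℤ * (X ^ (p ^ 2 * q) - 1))) := by
        ring
    _ = _ := by
        rw [h1, h2, h3, h4, h5]
        have e : (X ^ p - 1 : ℤ[X]) * (X ^ q - 1) * ((X ^ (p ^ 2 * q) - 1) * (X ^ p - 1))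
            * ((X ^ (p * q ^ 2) - 1) * (X ^ q - 1))
            * ((X ^ (p ^ 2 * q ^ 2) - 1) * (X ^ (p * q) - 1))
            = (X ^ p - 1) ^ 2 * ((X ^ q - 1) ^ 2 * (X ^ (p ^ 2 * q) - 1) * (X ^ (p * q ^ 2) - 1)
            * ((X ^ (p ^ 2 * q ^ 2) - 1) * (X ^ (p * q) - 1))) := by ring
        rw [e, ← h1]
        ring

/-- Both `Φ_p Φ_{p²}` and `Φ_q Φ_{q²}` are sums of powers of `X`. -/
lemma cyc_ones (hp : p.Prime) : cyclotomic p ℤ * cyclotomic (p ^ 2) ℤ = ones (p ^ 2) := by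
  have : Fact p.Prime := ⟨hp⟩
  have h1 : cyclotomic p ℤ * (X - 1) = X ^ p - 1 := cyclotomic_prime_mul_X_sub_one ℤ p
  have h2 : cyclotomic (p ^ (1 + 1)) ℤ * (X ^ (p ^ 1) - 1) = X ^ (p ^ (1 + 1)) - 1 :=
    cyclotomic_prime_pow_mul_X_pow_sub_one ℤ p 1
  have hX : (X - 1 : ℤ[X]) ≠ 0 := by simpa using bin_ne_zero 1 one_pos
  apply mul_right_cancel₀ hX
  unfold ones
  rw [geom_sum_mul]
  rw [pow_one] at h2
  norm_num at h2
  linear_combination cyclotomic (p ^ 2) ℤ * h1 + h2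

end cyc

/-! ### Reading off a coefficient -/

lemma coeff_of_mul (c a : ℤ[X]) (s : ℕ) (hs : 0 < s) (h : c * (1 - X ^ s) = a) (k : ℕ) :
    c.coeff k = ∑ j ∈ range (k / s + 1), a.coeff (k - j * s) := by
  induction k using Nat.strong_induction_on with
  | _ k ih =>
    have hk : a.coeff k = c.coeff k - (if s ≤ k then c.coeff (k - s) else 0) := by
      rw [← h, mul_sub, mul_one, coeff_sub, coeff_mul_X_pow']
    rw [sum_range_succ']
    by_cases hsk : s ≤ k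
    · rw [if_pos hsk] at hk
      have h2 := ih (k - s) (by omega)
      have e : (k - s) / s + 1 = k / s := by
        rw [Nat.div_eq_sub_div hs hsk]
      rw [e] at h2
      have h3 : ∑ j ∈ range (k / s), a.coeff (k - (j + 1) * s)
          = ∑ j ∈ range (k / s), a.coeff (k - s - j * s) := by
        apply sum_congr rfl
        intro j _
        congr 1
        have : (j + 1) * s = j * s + s := by ring
        omega
      rw [h3, ← h2, zero_mul, Nat.sub_zero]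
      linarith
    · rw [if_neg hsk] at hk
      have : k / s = 0 := Nat.div_eq_of_lt (by omega)
      rw [this]
      simp [hk]

/-- Coefficients of `Φ_19 ^ 2`. -/
def tri (s : ℕ) : ℤ := if s ≤ 18 then (s : ℤ) + 1 else if s ≤ 36 then 37 - (s : ℤ) else 0

/-- Coefficients of `Φ_19 ^ 2 * (1 - X ^ 149) ^ 2`. -/
def wf (k : ℕ) : ℤ :=
  tri k - (if 149 ≤ k then 2 * tri (k - 149) else 0) + (if 298 ≤ k then tri (k - 298) else 0)

lemma tri_poly : cyclotomic 19 ℤ ^ 2 = ∑ s ∈ range 37, C (tri s) * X ^ s := by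
  have : Fact (Nat.Prime 19) := ⟨by norm_num⟩
  rw [cyclotomic_prime]
  simp only [sum_range_succ, sum_range_zero, tri]
  norm_num
  ring

lemma coeff_tri (k : ℕ) : (cyclotomic 19 ℤ ^ 2).coeff k = tri k := by
  rw [tri_poly]
  simp only [finsetSum_coeff, coeff_C_mul, coeff_X_pow]
  simp only [mul_ite, mul_one, mul_zero, sum_ite_eq, mem_range]
  split_ifs with h
  · rfl
  · unfold tri
    rw [if_neg (by omega), if_neg (by omega)]

lemma coeff_w (n k : ℕ) (hk : k < n) :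
    (cyclotomic 19 ℤ ^ 2 * (1 - X ^ 149) ^ 2 * (1 - X ^ n)).coeff k = wf k := by
  have e : cyclotomic 19 ℤ ^ 2 * (1 - X ^ 149) ^ 2 * (1 - X ^ n)
      = cyclotomic 19 ℤ ^ 2 - C 2 * (cyclotomic 19 ℤ ^ 2 * X ^ 149) + cyclotomic 19 ℤ ^ 2 * X ^ 298
        - (cyclotomic 19 ℤ ^ 2 * (1 - X ^ 149) ^ 2) * X ^ n := by
    have : (C 2 : ℤ[X]) = 2 := rfl
    rw [this]; ring
  rw [e, coeff_sub, coeff_add, coeff_sub, coeff_C_mul, coeff_mul_X_pow', coeff_mul_X_pow',
    coeff_mul_X_pow', if_neg (by omega : ¬ n ≤ k), coeff_tri, coeff_tri, coeff_tri, sub_zero]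
  unfold wf
  split_ifs <;> simp

lemma wf_zero (k : ℕ) (hk : 361 ≤ k) : wf k = 0 := by
  unfold wf tri
  rw [if_neg (by omega), if_neg (by omega), if_pos (by omega), if_neg (by omega),
    if_neg (by omega), if_pos (by omega), if_neg (by omega), if_neg (by omega)]
  simp

/-- Inner sum. -/
def inner (k : ℕ) : ℕ → ℤ
  | 0 => 0
  | c + 1 => inner k c + wf ((k - c * 22201) % 361)

/-- Outer sum. -/
def outer (M : ℕ) : ℕ → ℤ
  | 0 => 0
  | b + 1 => outer M b + inner (M - b * 2831) ((M - b * 2831) / 22201 + 1)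

lemma inner_eq (k : ℕ) : ∀ c, inner k c = ∑ j ∈ range c, wf ((k - j * 22201) % 361)
  | 0 => rfl
  | c + 1 => by rw [sum_range_succ, inner, inner_eq k c]

lemma outer_eq (M : ℕ) : ∀ b, outer M b
    = ∑ j ∈ range b, inner (M - j * 2831) ((M - j * 2831) / 22201 + 1)
  | 0 => rfl
  | b + 1 => by rw [sum_range_succ, outer, outer_eq M b]

theorem outer_val : outer 1456798 515 = -835 := by decide +kernel

lemma coeff_gen (F W : ℤ[X]) (n s₁ s₂ s₃ M : ℕ) (h₁ : s₁ = 361) (h₂ : s₂ = 22201)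
    (h₃ : s₃ = 2831) (hW : ∀ k, k < n → W.coeff k = wf k)
    (hF : F * (1 - X ^ s₃) * (1 - X ^ s₂) * (1 - X ^ s₁) = W) (hM : M < n) :
    F.coeff M = outer M (M / 2831 + 1) := by
  have hu : ∀ k, k < n →
      (F * (1 - X ^ s₃) * (1 - X ^ s₂)).coeff k = wf (k % 361) := by
    intro k hk
    rw [coeff_of_mul _ _ s₁ (by omega) hF k, h₁]
    rw [sum_eq_single (k / 361)]
    · rw [hW _ (by omega)]
      congr 1
      have := Nat.div_add_mod k 361
      rw [mul_comm] at this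
      omega
    · intro j hj hne
      rw [mem_range] at hj
      have h1 : j + 1 ≤ k / 361 := by omega
      have h2 : (j + 1) * 361 ≤ k := by
        calc (j + 1) * 361 ≤ (k / 361) * 361 := by gcongr
          _ ≤ k := Nat.div_mul_le_self k 361
      rw [hW _ (by omega)]
      exact wf_zero _ (by omega)
    · intro hn
      exact absurd (mem_range.mpr (Nat.lt_succ_self _)) hn
  have hv : ∀ k, k < n → (F * (1 - X ^ s₃)).coeff k = inner k (k / 22201 + 1) := by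
    intro k hk
    rw [coeff_of_mul _ _ s₂ (by omega) rfl k, inner_eq]
    rw [h₂] at *
    apply sum_congr rfl
    intro j _
    exact hu _ (by omega)
  rw [coeff_of_mul _ _ s₃ (by omega) rfl M, outer_eq]
  rw [h₃] at *
  apply sum_congr rfl
  intro j _
  exact hv _ (by omega)

lemma coeff_F : (F 19 149).coeff 1456798 = -835 := by
  have h := cyc_big 19 149 (by norm_num) (by norm_num) (by norm_num)
  have h2 := coeff_gen (F 19 149) _ (19 ^ 2 * 149 ^ 2) (19 ^ 2) (149 ^ 2) (19 * 149) 1456798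
    (by norm_num) (by norm_num) (by norm_num) (fun k hk => coeff_w _ k hk) h (by norm_num)
  rw [h2]
  have : 1456798 / 2831 + 1 = 515 := by norm_num
  rw [this]
  exact outer_val

lemma prod_dvd (a b c d e n : ℕ) (hn : 0 < n) (ha : a ∣ n) (hb : b ∣ n) (hc : c ∣ n) (hd : d ∣ n)
    (he : e ∣ n) (h : a < b ∧ b < c ∧ c < d ∧ d < e) :
    cyclotomic a ℤ * cyclotomic b ℤ * cyclotomic c ℤ * cyclotomic d ℤ * cyclotomic e ℤ
      ∣ X ^ n - 1 := by
  rw [← prod_cyclotomic_eq_X_pow_sub_one hn ℤ]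
  have : cyclotomic a ℤ * cyclotomic b ℤ * cyclotomic c ℤ * cyclotomic d ℤ * cyclotomic e ℤ
      = ∏ i ∈ ({a, b, c, d, e} : Finset ℕ), cyclotomic i ℤ := by
    rw [prod_insert, prod_insert, prod_insert, prod_insert, prod_singleton]
    · ring
    all_goals
      simp only [mem_insert, mem_singleton, not_or]
      omega
  rw [this]
  apply prod_dvd_prod_of_subset
  intro i hi
  simp only [mem_insert, mem_singleton] at hi
  rw [Nat.mem_divisors]
  refine ⟨?_, by omega⟩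
  rcases hi with rfl | rfl | rfl | rfl | rfl <;> assumption

lemma F_dvd_gen (p q : ℕ) (hp : 2 ≤ p) (hpq : p < q) : F p q ∣ X ^ (p ^ 2 * q ^ 2) - 1 := by
  have hq : 2 ≤ q := by omega
  unfold F
  apply prod_dvd
  · positivity
  · exact ⟨p * q ^ 2, by ring⟩
  · exact ⟨p ^ 2 * q, by ring⟩
  · exact ⟨q, by ring⟩
  · exact ⟨p, by ring⟩
  · exact dvd_rfl
  · refine ⟨hpq, ?_, ?_, ?_⟩
    · have : 4 ≤ p ^ 2 := by nlinarith
      nlinarith
    · have : 0 < p * q := by positivity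
      nlinarith
    · have : 0 < p * q ^ 2 := by positivity
      nlinarith

lemma F_dvd : F 19 149 ∣ X ^ (19 ^ 2 * 149 ^ 2) - 1 :=
  F_dvd_gen 19 149 (by norm_num) (by norm_num)

/-! ### The two products of the conjectured formula -/

/-- The value of `Dp p q` at `b`. -/
def Dn (p q b : ℕ) : ℕ :=
  (b ^ 1 - 1) * (b ^ 1 - 1) * (b ^ (p ^ 2) - 1) * (b ^ (p * q) - 1) * (b ^ (p * q) - 1)
    * (b ^ (q ^ 2) - 1)

/-- The value of `Np p q` at `b`. -/
def Nn (p q b : ℕ) : ℕ :=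
  (b ^ p - 1) * (b ^ p - 1) * (b ^ q - 1) * (b ^ q - 1) * (b ^ (p ^ 2 * q) - 1)
    * (b ^ (p * q ^ 2) - 1)

/-- The value of the first product at `b`. -/
def val1 (p q b : ℕ) : ℕ := Nn p q b / Dn p q b

/-- `1 + b + ⋯ + b ^ (L-1)`. -/
def rep (L b : ℕ) : ℕ := (b ^ L - 1) / (b - 1)

theorem chk1 : (val1 19 149 (2 ^ 20) + 834 * rep 447719 (2 ^ 20)) &&&
    ((2 ^ 20 - 2 ^ 11) * rep 447719 (2 ^ 20)) = 0 := by
  decide +kernel

theorem chk2 : (834 * rep 447719 (2 ^ 20) - val1 19 149 (2 ^ 20)) &&&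
    ((2 ^ 20 - 2 ^ 11) * rep 447719 (2 ^ 20)) = 0 := by
  decide +kernel

theorem chk3 : val1 19 149 (2 ^ 20) ≤ 834 * rep 447719 (2 ^ 20) := by decide +kernel

theorem chk4 : val1 19 149 (2 ^ 20) + 834 * rep 447719 (2 ^ 20) < 2 ^ (20 * 447719) := by
  decide +kernel

theorem chk5 : 834 * rep 447719 (2 ^ 20) - val1 19 149 (2 ^ 20) < 2 ^ (20 * 447719) := by
  decide +kernel

lemma cast_pow_sub (b s : ℕ) (hb : 1 ≤ b) : ((b ^ s - 1 : ℕ) : ℤ) = (b : ℤ) ^ s - 1 := by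
  have : 1 ≤ b ^ s := Nat.one_le_pow _ _ hb
  push_cast [this]; ring

section gen

variable (p q : ℕ)

lemma Dp_ne (hp : 0 < p) (hq : 0 < q) : Dp p q ≠ 0 := by
  unfold Dp
  refine mul_ne_zero (mul_ne_zero (mul_ne_zero (mul_ne_zero (mul_ne_zero ?_ ?_) ?_) ?_) ?_) ?_ <;>
    exact bin_ne_zero _ (by positivity)

lemma Dp_eval (b : ℕ) (hb : 1 ≤ b) : (Dp p q).eval (b : ℤ) = (Dn p q b : ℤ) := by
  unfold Dp Dn
  simp only [Nat.cast_mul, cast_pow_sub _ _ hb, eval_mul, eval_sub, eval_pow, eval_X, eval_one]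

lemma Np_eval (b : ℕ) (hb : 1 ≤ b) : (Np p q).eval (b : ℤ) = (Nn p q b : ℤ) := by
  unfold Np Nn
  simp only [Nat.cast_mul, cast_pow_sub _ _ hb, eval_mul, eval_sub, eval_pow, eval_X, eval_one]

lemma Dn_pos (hp : 0 < p) (hq : 0 < q) (b : ℕ) (hb : 2 ≤ b) : 0 < Dn p q b := by
  have : ∀ s, 0 < s → 0 < b ^ s - 1 := by
    intro s hs
    have : 1 < b ^ s := Nat.one_lt_pow (by omega) (by omega)
    omega
  unfold Dn
  have h1 := this 1 (by norm_num)
  have h2 := this (p ^ 2) (by positivity)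
  have h3 := this (p * q) (by positivity)
  have h4 := this (q ^ 2) (by positivity)
  exact Nat.mul_pos (Nat.mul_pos (Nat.mul_pos (Nat.mul_pos (Nat.mul_pos h1 h1) h2) h3) h3) h4

lemma P1_eval (hp : p.Prime) (hq : q.Prime) (hpq : p ≠ q) (b : ℕ) (hb : 2 ≤ b) :
    (P1 p q).eval (b : ℤ) = (val1 p q b : ℤ) := by
  have h := congrArg (eval (b : ℤ)) (P1_mul p q hp hq hpq)
  rw [eval_mul, Dp_eval p q b (by omega), Np_eval p q b (by omega)] at h
  have hD : (0 : ℤ) < Dn p q b := by exact_mod_cast Dn_pos p q hp.pos hq.pos b hb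
  unfold val1
  push_cast
  rw [← h, Int.mul_ediv_cancel _ hD.ne']

lemma rep_eq (L b : ℕ) (hb : 2 ≤ b) : ∑ i ∈ range L, b ^ i = rep L b := by
  unfold rep
  exact Nat.geomSum_eq hb L

lemma Bd_Np : Bd (Np p q) 64 := by
  have h := (((((Bd.one.mul_X_pow_sub_one p).mul_X_pow_sub_one p).mul_X_pow_sub_one
    q).mul_X_pow_sub_one q).mul_X_pow_sub_one (p ^ 2 * q)).mul_X_pow_sub_one (p * q ^ 2)
  rw [one_mul] at h
  exact h

lemma Bd_Dp (P : ℤ[X]) (m : ℕ) (hP : Bd P m) : Bd (P * Dp p q) (64 * m) := by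
  have h := (((((hP.mul_X_pow_sub_one 1).mul_X_pow_sub_one 1).mul_X_pow_sub_one
    (p ^ 2)).mul_X_pow_sub_one (p * q)).mul_X_pow_sub_one (p * q)).mul_X_pow_sub_one (q ^ 2)
  have e : P * Dp p q = P * (X ^ 1 - 1) * (X ^ 1 - 1) * (X ^ (p ^ 2) - 1) * (X ^ (p * q) - 1)
      * (X ^ (p * q) - 1) * (X ^ (q ^ 2) - 1) := by unfold Dp; ring
  rw [e]
  apply h.mono
  omega

/-- The certificate for the first product. -/
lemma P1_bound_gen (hp : p.Prime) (hq : q.Prime) (hpq : p ≠ q) (L M : ℕ)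
    (h1 : (val1 p q (2 ^ 20) + M * rep L (2 ^ 20)) &&&
      ((2 ^ 20 - 2 ^ 11) * rep L (2 ^ 20)) = 0)
    (h2 : (M * rep L (2 ^ 20) - val1 p q (2 ^ 20)) &&&
      ((2 ^ 20 - 2 ^ 11) * rep L (2 ^ 20)) = 0)
    (h3 : val1 p q (2 ^ 20) ≤ M * rep L (2 ^ 20))
    (h4 : val1 p q (2 ^ 20) + M * rep L (2 ^ 20) < 2 ^ (20 * L))
    (h5 : M * rep L (2 ^ 20) - val1 p q (2 ^ 20) < 2 ^ (20 * L))
    (hs : 64 * (M + 2 ^ 11) + 64 < 2 ^ 20) : Bd (P1 p q) M := by
  refine bound_of_masks 20 11 L M 64 64 (by norm_num) (P1 p q) (Dp p q) (Np p q)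
    (Dp_ne p q hp.pos hq.pos) (P1_mul p q hp hq hpq)
    (val1 p q (2 ^ 20) + M * rep L (2 ^ 20)) (M * rep L (2 ^ 20) - val1 p q (2 ^ 20))
    (rep L (2 ^ 20)) (rep_eq _ _ (by norm_num)) ?_ ?_ h1 h2 h4 h5 (Bd_Np p q) (Bd_Dp p q) hs
  · rw [P1_eval p q hp hq hpq _ (by norm_num), Nat.cast_add, Nat.cast_mul]
  · rw [P1_eval p q hp hq hpq _ (by norm_num), Nat.cast_sub h3, Nat.cast_mul]

lemma P2_bound_gen (hp : p.Prime) (hq : q.Prime) : Bd (P2 p q) (p ^ 2) := by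
  have e : P2 p q = ones (p ^ 2) * ones (q ^ 2) := by
    rw [← cyc_ones p hp, ← cyc_ones q hq]
    unfold P2; ring
  rw [e]
  intro i
  have h1 : ones (p ^ 2) * ones (q ^ 2) = ∑ j ∈ range (p ^ 2), ones (q ^ 2) * X ^ j := by
    rw [mul_comm, ← mul_sum]; rfl
  rw [h1, finsetSum_coeff]
  have h2 : ∀ j ∈ range (p ^ 2), |(ones (q ^ 2) * X ^ j).coeff i| ≤ 1 := by
    intro j _
    rw [coeff_mul_X_pow', coeff_ones]
    split_ifs <;> simp
  have h3 := (abs_sum_le_sum_abs (fun j => (ones (q ^ 2) * X ^ j).coeff i) (range (p ^ 2))).trans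
    (sum_le_sum h2)
  rw [sum_const, card_range, nsmul_eq_mul, mul_one] at h3
  exact h3

end gen

lemma P1_bound : Bd (P1 19 149) 834 := by
  apply P1_bound_gen 19 149 (by norm_num) (by norm_num) (by norm_num) 447719 834 _ _ _ _ _
    (by norm_num)
  · exact chk1
  · exact chk2
  · exact chk3
  · exact chk4
  · exact chk5

lemma P2_bound : Bd (P2 19 149) (19 ^ 2) := P2_bound_gen 19 149 (by norm_num) (by norm_num)

end Pool.Agent.Q35.MaxHeight

namespace Pool.Agent.Results.MP_72c16c_nt.LargerHeight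

open Polynomial Pool.Agent.Q35.Kron Pool.Agent.Q35.MaxHeight

/-- The conjectured formula for `B(p²q²)` fails: for `p = 19`, `q = 149` some divisor of
`X^(p²q²) - 1` in `ℤ[X]` has height larger than both products, so the maximum of their heights is
not the greatest height of a divisor. -/
theorem result :
    (∃ p q : ℕ, p.Prime ∧ q.Prime ∧ p < q ∧ ∃ f : ℤ[X], f ∣ X ^ (p ^ 2 * q ^ 2) - 1 ∧
      height (cyclotomic p ℤ * cyclotomic q ℤ * cyclotomic (p ^ 2 * q) ℤ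
        * cyclotomic (p * q ^ 2) ℤ) < height f ∧
      height (cyclotomic p ℤ * cyclotomic q ℤ * cyclotomic (p ^ 2) ℤ * cyclotomic (q ^ 2) ℤ)
        < height f) ∧
    ¬ ∀ p q : ℕ, p.Prime → q.Prime → p < q →
      IsGreatest {h : ℕ | ∃ f : ℤ[X], f ∣ X ^ (p ^ 2 * q ^ 2) - 1 ∧ height f = h}
        (max (height (cyclotomic p ℤ * cyclotomic q ℤ * cyclotomic (p ^ 2 * q) ℤ
            * cyclotomic (p * q ^ 2) ℤ))
          (height (cyclotomic p ℤ * cyclotomic q ℤ * cyclotomic (p ^ 2) ℤ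
            * cyclotomic (q ^ 2) ℤ))) := by
  have hF : 835 ≤ height (F 19 149) := by
    have := le_height (F 19 149) 1456798
    rw [coeff_F] at this
    simpa using this
  have h1 : height (P1 19 149) < height (F 19 149) := by
    have := height_le P1_bound
    omega
  have h2 : height (P2 19 149) < height (F 19 149) := by
    have := height_le P2_bound
    omega
  refine ⟨⟨19, 149, by norm_num, by norm_num, by norm_num, F 19 149, F_dvd, h1, h2⟩, ?_⟩
  intro hall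
  have h3 := (hall 19 149 (by norm_num) (by norm_num) (by norm_num)).2
  have h4 := h3 ⟨F 19 149, F_dvd, rfl⟩
  rcases le_max_iff.mp h4 with h | h
  · exact absurd h (not_le.mpr h1)
  · exact absurd h (not_le.mpr h2)

end Pool.Agent.Results.MP_72c16c_nt.LargerHeight
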